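import Mathlib

set_option autoImplicit false

open Polynomial

namespace Pool.Agent.H.MP_345fd7_an.h81

section General

variable {R : Type} [CommRing R]

theorem pow_eq_zero_of_charpolyRev [Nontrivial R] {n : ℕ} (M : Matrix (Fin n) (Fin n) R)
    (h : M.charpolyRev = 1) : M ^ n = 0 := by
  have h1 : M.charpoly = X ^ n := by
    have h2 : reflect n M.charpoly = 1 := by
      have h3 := M.reverse_charpoly
      rw [Polynomial.reverse, M.charpoly_natDegree_eq_dim, Fintype.card_fin] at h3
      rw [h3, h]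
    have h4 : reflect n (reflect n M.charpoly) = M.charpoly := by
      ext i
      rw [coeff_reflect, coeff_reflect, revAt_invol]
    rw [← h4, h2]
    exact reflect_one n
  have h5 := M.aeval_self_charpoly
  rw [h1] at h5
  simpa using h5

end General

variable {G : Type} [CommGroup G] [Fintype G]

/-- the augmentation -/
noncomputable def aug (G : Type) [CommGroup G] : MonoidAlgebra ℤ G →+* ℤ :=
  (MonoidAlgebra.lift ℤ ℤ G (1 : G →* ℤ) : MonoidAlgebra ℤ G →ₐ[ℤ] ℤ).toRingHom

theorem aug_pos [Finite G] (x : MonoidAlgebra ℤ G) (hx : ∀ g, 0 < x.coeff g) : 0 < aug G x := by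
  classical
  have h1 : aug G x = x.coeff.sum fun _ b => b := by
    show (MonoidAlgebra.lift ℤ ℤ G (1 : G →* ℤ)) x = _
    rw [MonoidAlgebra.lift_apply]
    simp
  rw [h1, Finsupp.sum]
  apply Finset.sum_pos
  · intro g _; exact hx g
  · exact ⟨1, Finsupp.mem_support_iff.2 (hx 1).ne'⟩

theorem charpolyRev_map {R S : Type} [CommRing R] [CommRing S] (f : R →+* S) {n : ℕ}
    (M : Matrix (Fin n) (Fin n) R) : (M.map f).charpolyRev = M.charpolyRev.map f := by
  unfold Matrix.charpolyRev
  rw [← coe_mapRingHom, RingHom.map_det]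
  congr 1
  ext i j
  simp [Matrix.one_apply, apply_ite]

/-- the determinant of a nonempty `G`-primitive matrix is not a unit -/
theorem not_isUnit_charpolyRev {n : ℕ} (A : Matrix (Fin (n + 1)) (Fin (n + 1)) (MonoidAlgebra ℤ G))
    (hk : ∃ k : ℕ, 0 < k ∧ ∀ i j g, 0 < ((A ^ k) i j).coeff g) : ¬ IsUnit A.charpolyRev := by
  intro hu
  obtain ⟨k, hk0, hk⟩ := hk
  set B : Matrix (Fin (n + 1)) (Fin (n + 1)) ℤ := A.map (aug G) with hB
  have h1 : IsUnit B.charpolyRev := by
    rw [hB, charpolyRev_map]
    have := hu.map (mapRingHom (aug G))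
    rwa [coe_mapRingHom] at this
  have h2 : B.charpolyRev = 1 := by
    obtain ⟨r, hr, hr2⟩ := Polynomial.isUnit_iff.1 h1
    have h3 : B.charpolyRev.eval 0 = 1 := B.eval_charpolyRev
    rw [← hr2, eval_C] at h3
    rw [← hr2, h3, C_1]
  have h3 := pow_eq_zero_of_charpolyRev B h2
  have h4 : ∀ i j, 0 < (B ^ k) i j := by
    intro i j
    have : B ^ k = (A ^ k).map (aug G) := by
      rw [hB]
      exact (RingHom.map_pow (RingHom.mapMatrix (aug G)) A k).symm
    rw [this]
    exact aug_pos _ (hk i j)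
  have h5 : ∀ l : ℕ, ∀ i j, 0 < ((B ^ k) ^ (l + 1)) i j := by
    intro l
    induction l with
    | zero => intro i j; rw [zero_add, pow_one]; exact h4 i j
    | succ l ih =>
      intro i j
      rw [pow_succ, Matrix.mul_apply]
      apply Finset.sum_pos
      · intro c _; exact mul_pos (ih i c) (h4 c j)
      · exact Finset.univ_nonempty
  have h6 := h5 n 0 0
  rw [← pow_mul, mul_comm k, pow_mul, h3, zero_pow hk0.ne'] at h6
  exact lt_irrefl _ h6

end Pool.Agent.H.MP_345fd7_an.h81
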