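import Pool.Agent.H.MP_345fd7_an.h81.Elim
import Pool.Agent.H.MP_345fd7_an.Split
import Pool.Agent.H.MP_345fd7_an.Rows
import Pool.Agent.H.MP_345fd7_an.Star
import Pool.Agent.H.MP_345fd7_an.Init

/-! The structured nonnegative matrix -/

set_option autoImplicit false

namespace Pool.Agent.H.MP_345fd7_an.h81

open Pool.Agent.H.MP_345fd7_an

open Matrix Polynomial
open scoped NNReal

variable {G : Type} [CommGroup G] [Fintype G]

theorem exists_struct {n : ℕ} (A : Matrix (Fin (n + 1)) (Fin (n + 1)) (MonoidAlgebra ℤ G))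
    (hA : ∀ i j, Nn (A i j)) (hk : ∃ k : ℕ, 0 < k ∧ ∀ i j g, 0 < ((A ^ k) i j).coeff g)
    (r : ℝ≥0) (hr0 : 0 < r) (hr1 : r < 1)
    (hg : Grow r (PowerSeries.mk fun l => (A ^ l) 0 0)) (m : ℕ) :
    ∃ (O : Type) (_ : Fintype O) (_ : DecidableEq O) (_ : Fin m ↪ O)
      (M' : Matrix (Unit ⊕ O) (Unit ⊕ O) (Polynomial (MonoidAlgebra ℤ G)))
      (R : PowerSeries (MonoidAlgebra ℤ G)),
      (∀ i j, PNn (M' i j)) ∧ (∀ i j, (M' i j).coeff 0 = 0) ∧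
      (1 - M').det = (1 - (X : Polynomial (MonoidAlgebra ℤ G)) • A.map Polynomial.C).det ∧
      (∀ o, M' (Sum.inl ()) (Sum.inr o) ≠ 0) ∧ (∀ o, M' (Sum.inr o) (Sum.inl ()) ≠ 0) ∧
      (∃ o, M' (Sum.inl ()) (Sum.inr o) = X) ∧
      (1 - (M' (Sum.inl ()) (Sum.inl ()) : PowerSeries (MonoidAlgebra ℤ G))) * R = 1 ∧
      (∃ l₀ : ℕ, ∀ l, l₀ ≤ l → ∀ g,
        ((r : ℝ)⁻¹) ^ l ≤ (((PowerSeries.coeff l R).coeff g : ℤ) : ℝ)) := by
  obtain ⟨J, iJ1, iJ2, T, M, hM, hl⟩ := elim_loops _ _ _ _ (init_good A hA hk)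
  have key : ∃ (J' : Type) (_ : Fintype J') (_ : DecidableEq J') (T' : J')
      (M' : Matrix J' J' (Polynomial (MonoidAlgebra ℤ G)))
      (kT' : PowerSeries (MonoidAlgebra ℤ G)),
      Good T' M' (1 - (X : Polynomial (MonoidAlgebra ℤ G)) • A.map Polynomial.C).det kT' ∧
      Grow r kT' ∧ (∀ z, z ≠ T' → M' z z ≠ 0) ∧ ∃ z, z ≠ T' := by
    by_cases hJ : ∀ z, z = T
    · exact split_loops r hr0 hr1 T M _ _ hM hg hJ
    · push Not at hJ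
      exact ⟨J, iJ1, iJ2, T, M, _, hM, hg, hl, hJ⟩
  obtain ⟨J', iJ1', iJ2', T', M', kT', hM', hg', hl', hex⟩ := key
  obtain ⟨M'', hM'', hl'', hzT, hTz⟩ := rows_cols T' M' _ _ hM' hl'
  exact star r hr0 hr1 T' M'' _ _ hM'' hg' hl'' hzT hTz hex m

end Pool.Agent.H.MP_345fd7_an.h81
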