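import Pool.Agent.H.MP_345fd7_an.PFMain
import Pool.Agent.H.MP_345fd7_an.Ker
import Pool.Agent.H.MP_345fd7_an.Approx
import Pool.Agent.H.MP_345fd7_an.RoundInst
import Pool.Agent.H.MP_345fd7_an.h81.Struct
import Pool.Agent.H.MP_345fd7_an.Unimod
import Pool.Agent.H.MP_345fd7_an.Clean
import Pool.Agent.H.MP_345fd7_an.Lin
import Pool.Agent.H.MP_345fd7_an.SE
import Pool.Agent.H.MP_345fd7_an.Triv

/-! Assembly -/

set_option autoImplicit false

namespace Pool.Agent.H.MP_345fd7_an.h81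

open Pool.Agent.H.MP_345fd7_an

open Matrix Polynomial
open scoped NNReal

variable {G : Type} [CommGroup G] [Fintype G]

lemma grow_of_asym {n : ℕ} (A : Matrix (Fin (n + 1)) (Fin (n + 1)) (MonoidAlgebra ℤ G))
    (lam mu C c : ℝ) (h1 : 1 < lam) (h2 : 1 ≤ mu) (h3 : mu < lam) (hc : 0 < c)
    (has : ∀ (l : ℕ) g, |((((A ^ l) 0 0).coeff g : ℤ) : ℝ) - c * lam ^ l| ≤ C * mu ^ l)
    (r : ℝ≥0) (hr1 : lam⁻¹ < r) : Grow r (PowerSeries.mk fun l => (A ^ l) 0 0) := by
  intro D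
  have hr0 : (0 : ℝ) < r := lt_trans (by positivity) hr1
  have hrl : (r : ℝ)⁻¹ < lam := by
    rw [inv_lt_comm₀ hr0 (by positivity)]; exact hr1
  have t1 : Filter.Tendsto (fun l : ℕ => |D| * ((r : ℝ)⁻¹ / lam) ^ l + |C| * (mu / lam) ^ l)
      Filter.atTop (nhds (|D| * 0 + |C| * 0)) := by
    refine Filter.Tendsto.add (Filter.Tendsto.const_mul _ ?_) (Filter.Tendsto.const_mul _ ?_)
    · exact tendsto_pow_atTop_nhds_zero_of_lt_one (by positivity)
        ((div_lt_one (by positivity)).2 hrl)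
    · exact tendsto_pow_atTop_nhds_zero_of_lt_one (by positivity)
        ((div_lt_one (by positivity)).2 h3)
  rw [mul_zero, mul_zero, add_zero] at t1
  obtain ⟨l₀, hl₀⟩ := Filter.eventually_atTop.1 (t1.eventually (gt_mem_nhds hc))
  refine ⟨l₀, fun l hl g => ?_⟩
  rw [PowerSeries.coeff_mk]
  have h4 := hl₀ l hl
  have h5 : (0 : ℝ) < lam ^ l := by positivity
  have h6 := mul_lt_mul_of_pos_right h4 h5
  rw [add_mul, mul_assoc, ← mul_pow, div_mul_cancel₀ _ (by positivity), mul_assoc, ← mul_pow,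
    div_mul_cancel₀ _ (by positivity)] at h6
  have h7 := (abs_le.1 (has l g)).1
  have h8 : D * ((r : ℝ)⁻¹) ^ l ≤ |D| * ((r : ℝ)⁻¹) ^ l :=
    mul_le_mul_of_nonneg_right (le_abs_self D) (by positivity)
  have h9 : C * mu ^ l ≤ |C| * mu ^ l :=
    mul_le_mul_of_nonneg_right (le_abs_self C) (by positivity)
  linarith

theorem main_nontriv {n m : ℕ} (A : Matrix (Fin (n + 1)) (Fin (n + 1)) (MonoidAlgebra ℤ G))
    (B : Matrix (Fin m) (Fin m) (MonoidAlgebra ℤ G))
    (hA : ∀ i j, Nn (A i j)) (hk : ∃ k : ℕ, 0 < k ∧ ∀ i j g, 0 < ((A ^ k) i j).coeff g)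
    (hnt : ¬ (n = 0 ∧ Fintype.card G = 1 ∧ A 0 0 = 1))
    (hdet : (1 - (X : Polynomial (MonoidAlgebra ℤ G)) • A.map Polynomial.C).det =
      (1 - (X : Polynomial (MonoidAlgebra ℤ G)) • B.map Polynomial.C).det) :
    ∃ (p : ℕ) (Cm : Matrix (Fin p) (Fin p) (MonoidAlgebra ℤ G)),
      (∀ i j, Nn (Cm i j)) ∧ (∃ k : ℕ, 0 < k ∧ ∀ i j g, 0 < ((Cm ^ k) i j).coeff g) ∧
      ∃ ℓ : ℕ, 0 < ℓ ∧
          ∃ (R : Matrix (Fin m) (Fin p) (MonoidAlgebra ℤ G))
            (S : Matrix (Fin p) (Fin m) (MonoidAlgebra ℤ G)),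
            B * R = R * Cm ∧ S * B = Cm * S ∧ R * S = B ^ ℓ ∧ S * R = Cm ^ ℓ := by
  classical
  obtain ⟨lam, mu, C, c, u, h1, h2, h3, hC, hc, has, has', hu, heig⟩ := pf_main A hA hk hnt
  -- the radius
  obtain ⟨r', hr'1, hr'2⟩ : ∃ r' : ℝ, lam⁻¹ < r' ∧ r' < mu⁻¹ :=
    exists_between ((inv_lt_inv₀ (by positivity) (by positivity)).2 h3)
  have hr'0 : 0 < r' := lt_trans (by positivity) hr'1
  obtain ⟨r, rfl⟩ : ∃ r : ℝ≥0, (r : ℝ) = r' := ⟨⟨r', hr'0.le⟩, rfl⟩
  have hr0 : 0 < r := by exact_mod_cast hr'0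
  have hrmu : (r : ℝ) * mu < 1 := by
    have := mul_lt_mul_of_pos_right hr'2 (show (0 : ℝ) < mu by positivity)
    rwa [inv_mul_cancel₀ (by positivity)] at this
  have hr1' : (r : ℝ) < 1 := lt_of_lt_of_le hr'2 (inv_le_one_of_one_le₀ h2)
  have hr1 : r < 1 := by exact_mod_cast hr1'
  set p : Polynomial (MonoidAlgebra ℤ G) :=
    (1 - (X : Polynomial (MonoidAlgebra ℤ G)) • A.map Polynomial.C).det with hp
  -- the evaluation
  have haug : ∀ a : MonoidAlgebra ℤ G,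
      |((Int.castRingHom ℝ).comp (aug G)) a| ≤ nn a := by
    intro a
    rw [RingHom.comp_apply, aug_apply, map_sum]
    exact Finset.abs_sum_le_sum_abs _ _
  obtain ⟨ev, hev⟩ := exists_ev_hom ((Int.castRingHom ℝ).comp (aug G)) haug r lam⁻¹
    (by positivity) hr'1.le
  have hsurj : ∀ c : ℝ, ∃ f : Zr r (MonoidAlgebra ℤ G), cc f = 0 ∧ ev f = c := by
    intro c
    obtain ⟨f, hf0, hf⟩ := exists_digits (G := G) r hr1 lam⁻¹ (by positivity)
      (inv_lt_one_of_one_lt₀ h1) hr'1.le c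
    exact ⟨f, hf0, (hev f).unique hf⟩
  have hp0 : ev (toZr r p) = 0 := ev_det A lam h1 u hu heig r ev hev
  have hker : ∀ f, ev f = 0 → toZr r p ∣ f := by
    intro f hf
    refine ev_ker A lam mu C (c 0 0) h1 h2 h3 hC (fun l g => has l 0 0 g) has' r hr'1 hrmu f ?_
    rw [← hf]
    exact hev f
  have hp1 : p.coeff 0 = 1 := by
    have e1 : p.coeff 0 = Polynomial.constantCoeff p := rfl
    rw [e1, hp, RingHom.map_det]
    have e2 : (Polynomial.constantCoeff (R := MonoidAlgebra ℤ G)).mapMatrix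
        (1 - (X : Polynomial (MonoidAlgebra ℤ G)) • A.map Polynomial.C) = 1 := by
      ext i j
      simp [Matrix.map_apply, Matrix.one_apply]
      split_ifs <;> simp
    rw [e2, Matrix.det_one]
  -- the structured matrix
  obtain ⟨O, iO1, iO2, ι0, M, R, hnn, h0, hMdet, hTo, hoT, ⟨o, ho⟩, hR, hgrow⟩ :=
    exists_struct A hA hk r hr0 hr1
      (grow_of_asym A lam mu C (c 0 0) h1 h2 h3 (hc 0 0) (fun l g => has l 0 0 g) r hr'1) m
  -- the matrix `Q`
  let e0 : Fin m ≃ {o : O // o ∈ Set.range ι0} := Equiv.ofInjective ι0 ι0.injective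
  let e : {o : O // ¬ (o ∈ Set.range ι0)} ⊕ Fin m ≃ O :=
    ((Equiv.sumComm _ _).trans (Equiv.sumCongr e0 (Equiv.refl _))).trans
      (Equiv.sumCompl (fun o => o ∈ Set.range ι0))
  let Q0 : Matrix ({o : O // ¬ (o ∈ Set.range ι0)} ⊕ Fin m)
      ({o : O // ¬ (o ∈ Set.range ι0)} ⊕ Fin m) (Polynomial (MonoidAlgebra ℤ G)) :=
    Matrix.fromBlocks 1 0 0 (1 - (X : Polynomial (MonoidAlgebra ℤ G)) • B.map Polynomial.C)
  let Q : Matrix O O (Polynomial (MonoidAlgebra ℤ G)) := Q0.submatrix e.symm e.symm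
  have hQdet : Q.det = p := by
    show (Q0.submatrix e.symm e.symm).det = p
    rw [Matrix.det_submatrix_equiv_self]
    show (Matrix.fromBlocks 1 0 0 _).det = p
    rw [Matrix.det_fromBlocks_zero₂₁, Matrix.det_one, one_mul, hdet]
  have hQ0 : ∀ i j, (Q i j).coeff 0 = (1 : Matrix O O (MonoidAlgebra ℤ G)) i j := by
    intro i j
    show (Q0 (e.symm i) (e.symm j)).coeff 0 = _
    have : (1 : Matrix O O (MonoidAlgebra ℤ G)) i j =
        (1 : Matrix _ _ (MonoidAlgebra ℤ G)) (e.symm i) (e.symm j) := by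
      simp [Matrix.one_apply]
    rw [this]
    generalize e.symm i = i'
    generalize e.symm j = j'
    rcases i' with i' | i' <;> rcases j' with j' | j' <;>
      simp [Q0, Matrix.one_apply] <;> split_ifs <;> simp
  have hcokQ : CokIso Q (1 - (X : Polynomial (MonoidAlgebra ℤ G)) • B.map Polynomial.C) :=
    (CokIso.of_reindex e Q0).symm.trans (CokIso.of_fromBlocks 0 _)
  -- splitting off the first row
  obtain ⟨κ, Ω, RR, hRRdet, hfact, hΩ0⟩ := unimod M h0 o ho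
  have hΩdet : Ω.det = p := by
    rw [hfact, Matrix.det_mul, hRRdet, mul_one, Matrix.det_fromBlocks_zero₁₂,
      Matrix.det_one, one_mul] at hMdet
    exact hMdet
  obtain ⟨ε, hε, hclean⟩ := clean r hr0 hr1 M hnn h0 hTo hoT R hR hgrow
  obtain ⟨D⟩ := exists_roundData G
  have hRRn : 0 ≤ nn (RR.map (toZr r)) := nn_nonneg _
  obtain ⟨E, F, hE, hF, hEF⟩ := approx_main D r hr0 hr1 ev hsurj p hp0 hp1 hker Ω Q hΩdet hQdet
    hΩ0 hQ0 (ε := ε / (nn (RR.map (toZr r)) + 1)) (by positivity)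
  set Ω' := E * Q * F with hΩ'
  let N : Matrix (Unit ⊕ O) (Unit ⊕ O) (Polynomial (MonoidAlgebra ℤ G)) :=
    Matrix.fromBlocks 1 0 κ Ω' * RR
  have hN1 : ∀ j, N (Sum.inl ()) j = (1 - M) (Sum.inl ()) j := by
    intro j
    rw [hfact]
    show (Matrix.fromBlocks 1 0 κ Ω' * RR) (Sum.inl ()) j = _
    simp [Matrix.mul_apply]
  have hN2 : ∀ o j, nn (toZr r (N (Sum.inr o) j - (1 - M) (Sum.inr o) j)) < ε := by
    intro o j
    have e1 : N (Sum.inr o) j - (1 - M) (Sum.inr o) j =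
        ∑ o', -((Ω - Ω') o o') * RR (Sum.inr o') j := by
      rw [hfact]
      show (Matrix.fromBlocks 1 0 κ Ω' * RR) (Sum.inr o) j - _ = _
      simp only [Matrix.mul_apply, Fintype.sum_sum_type, Matrix.fromBlocks_apply₂₁,
        Matrix.fromBlocks_apply₂₂]
      rw [add_sub_add_left_eq_sub, ← Finset.sum_sub_distrib]
      refine Finset.sum_congr rfl fun o' _ => ?_
      rw [Matrix.sub_apply]; ring
    rw [e1, map_sum]
    calc nn (∑ o', toZr r (-((Ω - Ω') o o') * RR (Sum.inr o') j))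
        ≤ ∑ o', nn (toZr r ((Ω - Ω') o o')) * nn (toZr r (RR (Sum.inr o') j)) := by
          refine (nn_sum _ _).trans (Finset.sum_le_sum fun o' _ => ?_)
          rw [map_mul, map_neg]
          refine (nn_mul _ _).trans ?_
          rw [nn_neg]
      _ ≤ ∑ o', nn (toZr r ((Ω - Ω') o o')) * nn (RR.map (toZr r)) := by
          refine Finset.sum_le_sum fun o' _ => mul_le_mul_of_nonneg_left ?_ (nn_nonneg _)
          exact nn_entry_le (RR.map (toZr r)) (Sum.inr o') j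
      _ = (∑ o', nn (toZr r ((Ω - Ω') o o'))) * nn (RR.map (toZr r)) := by
          rw [Finset.sum_mul]
      _ ≤ nn ((Ω - Ω').map (toZr r)) * nn (RR.map (toZr r)) := by
          refine mul_le_mul_of_nonneg_right ?_ hRRn
          rw [nn_matrix]
          exact Finset.single_le_sum (f := fun i => ∑ j, nn (((Ω - Ω').map (toZr r)) i j))
            (fun l' _ => Finset.sum_nonneg fun j _ => nn_nonneg _) (Finset.mem_univ o)
      _ ≤ nn ((Ω - Ω').map (toZr r)) * (nn (RR.map (toZr r)) + 1) := by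
          refine mul_le_mul_of_nonneg_left (by linarith) (nn_nonneg _)
      _ < ε / (nn (RR.map (toZr r)) + 1) * (nn (RR.map (toZr r)) + 1) := by
          exact mul_lt_mul_of_pos_right hEF (by positivity)
      _ = ε := div_mul_cancel₀ _ (by positivity)
  obtain ⟨M'', hnn'', h0'', hTT, hedge, L, hLdet, hL⟩ := hclean N hN1 hN2
  have hpos : ∃ l₀ : ℕ, ∀ l, l₀ ≤ l → ∀ g, 0 < (PowerSeries.coeff l R).coeff g := by
    obtain ⟨l₀, hl₀⟩ := hgrow
    refine ⟨l₀, fun l hl g => ?_⟩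
    have := hl₀ l hl g
    have h5 : (0 : ℝ) < ((r : ℝ)⁻¹) ^ l := by positivity
    exact_mod_cast lt_of_lt_of_le h5 this
  obtain ⟨q, Cm, hCm, hCk, hcok⟩ := lin G M'' hnn'' h0'' hedge R (by rw [hTT]; exact hR) hpos
  refine ⟨q, Cm, hCm, hCk, ?_⟩
  have c1 : CokIso (1 - M'') N := by
    refine CokIso.of_equiv L 1 (by rw [hLdet]; exact isUnit_one) (by simp) ?_
    rw [Matrix.mul_one, hL]
  have c2 : CokIso N (Matrix.fromBlocks (1 : Matrix Unit Unit _) 0 κ Ω') := by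
    refine CokIso.of_equiv 1 RR (by simp) (by rw [hRRdet]; exact isUnit_one) ?_
    rw [Matrix.one_mul]
  have c3 : CokIso Ω' Q :=
    CokIso.of_equiv E F (by rw [hE]; exact isUnit_one) (by rw [hF]; exact isUnit_one) rfl
  exact se_of_cokIso Cm B ((((hcok.trans c1).trans c2).trans
    (CokIso.of_fromBlocks κ Ω')).trans (c3.trans hcokQ))

end Pool.Agent.H.MP_345fd7_an.h81
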